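import Pool.Agent.BER.Stmts

set_option autoImplicit false

/-!
# Squad BER (MP_be01ff_an), row LPM: the classes LP and TL, products and leading coefficients
-/

namespace Pool.Agent.BER.H63

open Pool.Agent.BER

theorem tg_mul_add (s s' : Bool) (j' d : ℕ) : ∃ (c c' : ℝ) (s1 s2 : Bool),
    ∀ ψ : ℝ, tg s (j' + d) ψ * tg s' j' ψ =
      c * tg s1 (j' + d + j') ψ + c' * tg s2 d ψ := by
  have hA : ∀ ψ : ℝ, ((j' + d + j' : ℕ) : ℝ) * ψ = ((j' + d : ℕ) : ℝ) * ψ + (j' : ℝ) * ψ := by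
    intro ψ
    push_cast
    ring
  have hB : ∀ ψ : ℝ, ((d : ℕ) : ℝ) * ψ = ((j' + d : ℕ) : ℝ) * ψ - (j' : ℝ) * ψ := by
    intro ψ
    push_cast
    ring
  cases s <;> cases s'
  · refine ⟨1 / 2, 1 / 2, false, false, fun ψ => ?_⟩
    show Real.cos (((j' + d : ℕ) : ℝ) * ψ) * Real.cos ((j' : ℝ) * ψ) =
      1 / 2 * Real.cos (((j' + d + j' : ℕ) : ℝ) * ψ) + 1 / 2 * Real.cos ((d : ℝ) * ψ)
    rw [hA, hB, Real.cos_add, Real.cos_sub]
    ring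
  · refine ⟨1 / 2, -(1 / 2), true, true, fun ψ => ?_⟩
    show Real.cos (((j' + d : ℕ) : ℝ) * ψ) * Real.sin ((j' : ℝ) * ψ) =
      1 / 2 * Real.sin (((j' + d + j' : ℕ) : ℝ) * ψ) + -(1 / 2) * Real.sin ((d : ℝ) * ψ)
    rw [hA, hB, Real.sin_add, Real.sin_sub]
    ring
  · refine ⟨1 / 2, 1 / 2, true, true, fun ψ => ?_⟩
    show Real.sin (((j' + d : ℕ) : ℝ) * ψ) * Real.cos ((j' : ℝ) * ψ) =
      1 / 2 * Real.sin (((j' + d + j' : ℕ) : ℝ) * ψ) + 1 / 2 * Real.sin ((d : ℝ) * ψ)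
    rw [hA, hB, Real.sin_add, Real.sin_sub]
    ring
  · refine ⟨-(1 / 2), 1 / 2, false, false, fun ψ => ?_⟩
    show Real.sin (((j' + d : ℕ) : ℝ) * ψ) * Real.sin ((j' : ℝ) * ψ) =
      -(1 / 2) * Real.cos (((j' + d + j' : ℕ) : ℝ) * ψ) + 1 / 2 * Real.cos ((d : ℝ) * ψ)
    rw [hA, hB, Real.cos_add, Real.cos_sub]
    ring

theorem tg_mul (s s' : Bool) (j j' : ℕ) : ∃ (c c' : ℝ) (s1 s2 : Bool) (i1 i2 : ℕ),
    i1 % 2 = (j + j') % 2 ∧ i2 % 2 = (j + j') % 2 ∧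
    ∀ ψ : ℝ, tg s j ψ * tg s' j' ψ = c * tg s1 i1 ψ + c' * tg s2 i2 ψ := by
  rcases le_total j' j with h | h
  · obtain ⟨d, rfl⟩ := Nat.exists_eq_add_of_le h
    obtain ⟨c, c', s1, s2, hc⟩ := tg_mul_add s s' j' d
    exact ⟨c, c', s1, s2, _, _, rfl, by omega, hc⟩
  · obtain ⟨d, rfl⟩ := Nat.exists_eq_add_of_le h
    obtain ⟨c, c', s1, s2, hc⟩ := tg_mul_add s' s j d
    refine ⟨c, c', s1, s2, j + d + j, d, by omega, by omega, fun ψ => ?_⟩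
    rw [mul_comm]
    exact hc ψ

section gen

variable (M : Type) [NormedAddCommGroup M] [NormedSpace ℝ M]

theorem lp_mono (N N' e e' : ℕ) (hN : N ≤ N') (he : e % 2 = e' % 2) :
    LP M N' e ≤ LP M N e' := by
  apply Submodule.span_mono
  rintro P ⟨k, b, j, s, x, hk, hj, hP⟩
  exact ⟨k, b, j, s, x, hN.trans hk, hj.trans he, hP⟩

theorem tl_mono (J J' : ℕ) (hJ : J ≤ J') : TL M J ≤ TL M J' := by
  apply Submodule.span_mono
  rintro P ⟨b, j, s, x, ho, hj, hP⟩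
  exact ⟨b, j, s, x, ho, hj.trans hJ, hP⟩

/-- Multiplication by `τ ^ k`. -/
def mt (k : ℕ) : (ℝ → ℝ → ℝ → M) →ₗ[ℝ] (ℝ → ℝ → ℝ → M) where
  toFun P := fun ψ τ L => τ ^ k • P ψ τ L
  map_add' P Q := by
    funext ψ τ L
    simp [smul_add]
  map_smul' c P := by
    funext ψ τ L
    simp [smul_comm c]

/-- From functions of `(ψ, L)` to functions of `(ψ, τ, L)`. -/
def mv (k : ℕ) : (ℝ → ℝ → M) →ₗ[ℝ] (ℝ → ℝ → ℝ → M) where
  toFun P := fun ψ τ L => τ ^ k • P ψ L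
  map_add' P Q := by
    funext ψ τ L
    simp [smul_add]
  map_smul' c P := by
    funext ψ τ L
    simp [smul_comm c]

theorem lp_mt (N k e : ℕ) : ∀ P ∈ LP M N e, (fun ψ τ L => τ ^ k • P ψ τ L) ∈ LP M (N + k) e := by
  have h : LP M N e ≤ (LP M (N + k) e).comap (mt M k) := by
    unfold LP
    rw [Submodule.span_le]
    rintro P ⟨k', b, j, s, x, hk, hj, rfl⟩
    apply Submodule.subset_span
    refine ⟨k + k', b, j, s, x, by omega, hj, ?_⟩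
    funext ψ τ L
    show τ ^ k • ((τ ^ k' * L ^ b * tg s j ψ) • x) = (τ ^ (k + k') * L ^ b * tg s j ψ) • x
    rw [smul_smul]
    congr 1
    ring
  intro P hP
  exact h hP

theorem tl_mv (J k : ℕ) : ∀ V ∈ TL M J, (fun ψ τ L => τ ^ k • V ψ L) ∈ LP M k 1 := by
  have h : TL M J ≤ (LP M k 1).comap (mv M k) := by
    unfold TL
    rw [Submodule.span_le]
    rintro P ⟨b, j, s, x, ho, hj, rfl⟩
    apply Submodule.subset_span
    refine ⟨k, b, j, s, x, le_rfl, Nat.odd_iff.1 ho, ?_⟩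
    funext ψ τ L
    show τ ^ k • ((L ^ b * tg s j ψ) • x) = (τ ^ k * L ^ b * tg s j ψ) • x
    rw [smul_smul]
    congr 1
    ring
  intro P hP
  exact h hP

theorem lead (N : ℕ) : ∀ P ∈ LP M N 1, ∃ J : ℕ, ∃ Q ∈ TL M J, ∃ P' ∈ LP M (N + 1) 1,
    ∀ ψ τ L, P ψ τ L = τ ^ N • Q ψ L + P' ψ τ L := by
  intro P hP
  unfold LP at hP
  refine Submodule.span_induction (p := fun P _ => ∃ J : ℕ, ∃ Q ∈ TL M J,
    ∃ P' ∈ LP M (N + 1) 1, ∀ ψ τ L, P ψ τ L = τ ^ N • Q ψ L + P' ψ τ L) ?_ ?_ ?_ ?_ hP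
  · rintro P ⟨k, b, j, s, x, hk, hj, rfl⟩
    rcases eq_or_lt_of_le hk with h | h
    · refine ⟨j, fun ψ L => (L ^ b * tg s j ψ) • x, ?_, 0, Submodule.zero_mem _, ?_⟩
      · exact Submodule.subset_span ⟨b, j, s, x, Nat.odd_iff.2 hj, le_rfl, rfl⟩
      · intro ψ τ L
        show (τ ^ k * L ^ b * tg s j ψ) • x = τ ^ N • ((L ^ b * tg s j ψ) • x) + 0
        rw [add_zero, smul_smul, h]
        congr 1
        ring
    · refine ⟨0, 0, Submodule.zero_mem _, _,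
        Submodule.subset_span ⟨k, b, j, s, x, h, hj, rfl⟩, ?_⟩
      intro ψ τ L
      show (τ ^ k * L ^ b * tg s j ψ) • x = τ ^ N • (0 : M) + (τ ^ k * L ^ b * tg s j ψ) • x
      rw [smul_zero, zero_add]
  · refine ⟨0, 0, Submodule.zero_mem _, 0, Submodule.zero_mem _, ?_⟩
    intro ψ τ L
    show (0 : M) = τ ^ N • (0 : M) + 0
    rw [smul_zero, zero_add]
  · rintro P1 P2 _ _ ⟨J1, Q1, hQ1, P1', hP1', h1⟩ ⟨J2, Q2, hQ2, P2', hP2', h2⟩
    refine ⟨max J1 J2, Q1 + Q2, Submodule.add_mem _ (tl_mono M _ _ (le_max_left _ _) hQ1)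
      (tl_mono M _ _ (le_max_right _ _) hQ2), P1' + P2', Submodule.add_mem _ hP1' hP2', ?_⟩
    intro ψ τ L
    show P1 ψ τ L + P2 ψ τ L = τ ^ N • (Q1 ψ L + Q2 ψ L) + (P1' ψ τ L + P2' ψ τ L)
    rw [h1, h2, smul_add]
    abel
  · rintro c P1 _ ⟨J1, Q1, hQ1, P1', hP1', h1⟩
    refine ⟨J1, c • Q1, Submodule.smul_mem _ _ hQ1, c • P1', Submodule.smul_mem _ _ hP1', ?_⟩
    intro ψ τ L
    show c • P1 ψ τ L = τ ^ N • (c • Q1 ψ L) + c • P1' ψ τ L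
    rw [h1, smul_add, smul_comm c]

end gen

section ring

variable (X : Type) [NormedCommRing X] [NormedAlgebra ℝ X]

/-- Multiplication by a function. -/
def mr (P : ℝ → ℝ → ℝ → X) : (ℝ → ℝ → ℝ → X) →ₗ[ℝ] (ℝ → ℝ → ℝ → X) where
  toFun Q := fun ψ τ L => P ψ τ L * Q ψ τ L
  map_add' Q Q' := by
    funext ψ τ L
    simp [mul_add]
  map_smul' c Q := by
    funext ψ τ L
    simp

theorem gen_mul (N N' e e' k b j : ℕ) (s : Bool) (x : X) (hk : N ≤ k) (hj : j % 2 = e % 2) :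
    ∀ Q ∈ LP X N' e', (fun ψ τ L => (τ ^ k * L ^ b * tg s j ψ) • x * Q ψ τ L) ∈
      LP X (N + N') (e + e') := by
  have h : LP X N' e' ≤ (LP X (N + N') (e + e')).comap
      (mr X (fun ψ τ L => (τ ^ k * L ^ b * tg s j ψ) • x)) := by
    rw [LP, Submodule.span_le]
    rintro Q ⟨k', b', j', s', x', hk', hj', rfl⟩
    obtain ⟨c, c', s1, s2, i1, i2, h1, h2, hc⟩ := tg_mul s s' j j'
    have e1 : (fun ψ τ L => (τ ^ k * L ^ b * tg s j ψ) • x *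
        ((τ ^ k' * L ^ b' * tg s' j' ψ) • x') : ℝ → ℝ → ℝ → X) =
        (fun ψ τ L => (τ ^ (k + k') * L ^ (b + b') * tg s1 i1 ψ) • (c • (x * x'))) +
        (fun ψ τ L => (τ ^ (k + k') * L ^ (b + b') * tg s2 i2 ψ) • (c' • (x * x'))) := by
      funext ψ τ L
      show (τ ^ k * L ^ b * tg s j ψ) • x * ((τ ^ k' * L ^ b' * tg s' j' ψ) • x') =
        (τ ^ (k + k') * L ^ (b + b') * tg s1 i1 ψ) • (c • (x * x')) +
        (τ ^ (k + k') * L ^ (b + b') * tg s2 i2 ψ) • (c' • (x * x'))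
      rw [smul_mul_smul_comm, smul_smul, smul_smul, ← add_smul]
      congr 1
      calc τ ^ k * L ^ b * tg s j ψ * (τ ^ k' * L ^ b' * tg s' j' ψ)
          = τ ^ (k + k') * L ^ (b + b') * (tg s j ψ * tg s' j' ψ) := by ring
        _ = _ := by
          rw [hc ψ]
          ring
    show (fun ψ τ L => (τ ^ k * L ^ b * tg s j ψ) • x *
        ((τ ^ k' * L ^ b' * tg s' j' ψ) • x') : ℝ → ℝ → ℝ → X) ∈ LP X (N + N') (e + e')
    rw [e1]
    refine Submodule.add_mem _ ?_ ?_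
    · exact Submodule.subset_span ⟨k + k', b + b', i1, s1, _, by omega, by omega, rfl⟩
    · exact Submodule.subset_span ⟨k + k', b + b', i2, s2, _, by omega, by omega, rfl⟩
  intro Q hQ
  exact h hQ

theorem lp_mul (N N' e e' : ℕ) : ∀ P ∈ LP X N e, ∀ Q ∈ LP X N' e',
    (fun ψ τ L => P ψ τ L * Q ψ τ L) ∈ LP X (N + N') (e + e') := by
  intro P hP Q hQ
  have h : LP X N e ≤ (LP X (N + N') (e + e')).comap (mr X Q) := by
    rw [LP, Submodule.span_le]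
    rintro P ⟨k, b, j, s, x, hk, hj, rfl⟩
    have h1 := gen_mul X N N' e e' k b j s x hk hj Q hQ
    have e1 : (fun ψ τ L => (τ ^ k * L ^ b * tg s j ψ) • x * Q ψ τ L : ℝ → ℝ → ℝ → X) =
        mr X Q (fun ψ τ L => (τ ^ k * L ^ b * tg s j ψ) • x) := by
      funext ψ τ L
      show (τ ^ k * L ^ b * tg s j ψ) • x * Q ψ τ L = Q ψ τ L * ((τ ^ k * L ^ b * tg s j ψ) • x)
      rw [mul_comm]
    rw [e1] at h1
    exact h1
  have h2 : mr X Q P ∈ LP X (N + N') (e + e') := h hP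
  have e2 : (fun ψ τ L => P ψ τ L * Q ψ τ L : ℝ → ℝ → ℝ → X) = mr X Q P := by
    funext ψ τ L
    show P ψ τ L * Q ψ τ L = Q ψ τ L * P ψ τ L
    rw [mul_comm]
  rw [e2]
  exact h2

theorem lp_pow (N e n : ℕ) : ∀ P ∈ LP X N e,
    (fun ψ τ L => P ψ τ L ^ n) ∈ LP X (n * N) (n * e) := by
  intro P hP
  induction n with
  | zero =>
    refine Submodule.subset_span ⟨0, 0, 0, false, 1, by omega, by simp, ?_⟩
    funext ψ τ L
    show P ψ τ L ^ 0 = (τ ^ 0 * L ^ 0 * Real.cos (((0 : ℕ) : ℝ) * ψ)) • (1 : X)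
    simp
  | succ n ih =>
    have h := lp_mul X (n * N) N (n * e) e _ ih P hP
    have e1 : (fun ψ τ L => P ψ τ L ^ (n + 1) : ℝ → ℝ → ℝ → X) =
        fun ψ τ L => P ψ τ L ^ n * P ψ τ L := by
      funext ψ τ L
      rw [pow_succ]
    rw [e1, add_mul, add_mul, one_mul, one_mul]
    exact h

end ring

/-- LPM. -/
theorem lpm : LpmStmt := by
  refine ⟨?_, ?_⟩
  · intro M _ _
    exact ⟨lp_mono M, lp_mt M, tl_mv M, lead M, tl_mono M⟩
  · intro X _ _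
    exact ⟨lp_mul X, lp_pow X⟩

end Pool.Agent.BER.H63
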